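import Mathlib

/-!
# Radio graceful Cartesian products with a factor that is not radio graceful
-/

namespace Pool.Agent.Results.MP_ce2a64_co.NonGracefulFactor

open SimpleGraph

/-- `f` is a radio labeling of `G`: `|f u - f v| ≥ diam G + 1 - d(u, v)` for distinct `u, v`. -/
def IsRadioLabeling {V : Type*} (G : SimpleGraph V) (f : V → ℕ) : Prop :=
  ∀ u v, u ≠ v → (G.diam : ℤ) + 1 - G.dist u v ≤ |(f u : ℤ) - f v|

/-- `G` is radio graceful: it has a radio labeling whose set of labels is
`{0, 1, ..., |V| - 1}`. -/
def RadioGraceful {V : Type*} [Fintype V] (G : SimpleGraph V) : Prop :=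
  ∃ f : V → ℕ, IsRadioLabeling G f ∧ Set.range f = Set.Iio (Fintype.card V)

/-! ### The example -/

/-- The non-adjacent pairs of the example: three triangles `{0,1,2}`, `{3,4,5}`, `{6,7,8}` and
the vertex `9` joined to two vertices of each triangle. -/
def far (u v : Fin 10) : Bool :=
  decide (u ≠ v) && ((decide (u.val < 9) && decide (v.val < 9) && decide (u.val / 3 = v.val / 3)) ||
    (decide (u = 9) && decide (v.val % 3 < 2)) || (decide (v = 9) && decide (u.val % 3 < 2)))

/-- The graph `G`: the complement of `far`. -/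
def exG : SimpleGraph (Fin 10) where
  Adj u v := u ≠ v ∧ far u v = false
  symm := ⟨by decide⟩
  loopless := ⟨by decide⟩

instance : DecidableRel exG.Adj := fun u v => by unfold exG; infer_instance

/-- distances in `G` -/
def dG (u v : Fin 10) : ℕ := if u = v then 0 else if far u v then 2 else 1

/-- distances in `K_3` -/
def dH (u v : Fin 3) : ℕ := if u = v then 0 else 1

theorem edG (u v : Fin 10) : exG.edist u v = (dG u v : ℕ∞) := by
  unfold dG
  split_ifs with h1 h2
  · subst h1; simp
  · rw [Nat.cast_ofNat, edist_eq_two_iff]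
    refine ⟨h1, fun h => by simp [exG, h2] at h, ?_⟩
    revert u v
    have : ∀ u v : Fin 10, u ≠ v → far u v = true → ∃ w, exG.Adj u w ∧ exG.Adj v w := by decide
    intro u v h1 h2
    obtain ⟨w, hw⟩ := this u v h1 h2
    exact ⟨w, (mem_commonNeighbors _).2 hw⟩
  · rw [Nat.cast_one, edist_eq_one_iff_adj]
    exact ⟨h1, by simpa using h2⟩

theorem edH (u v : Fin 3) : (⊤ : SimpleGraph (Fin 3)).edist u v = (dH u v : ℕ∞) := by
  rw [edist_top]
  unfold dH
  split_ifs <;> simp

theorem dG_le (u v : Fin 10) : dG u v ≤ 2 := by unfold dG; split_ifs <;> omega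

theorem ediamG : exG.ediam = 2 := by
  apply le_antisymm
  · rw [ediam_le_iff]
    intro u v
    rw [edG]
    exact_mod_cast dG_le u v
  · have : exG.edist 0 1 ≤ exG.ediam := edist_le_ediam
    rw [edG] at this
    exact this

theorem edP (x y : Fin 10 × Fin 3) :
    (exG □ (⊤ : SimpleGraph (Fin 3))).edist x y = ((dG x.1 y.1 + dH x.2 y.2 : ℕ) : ℕ∞) := by
  rw [edist_boxProd, edG, edH]
  push_cast
  rfl

theorem ediamP : (exG □ (⊤ : SimpleGraph (Fin 3))).ediam = 3 := by
  apply le_antisymm
  · rw [ediam_le_iff]
    intro u v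
    rw [edP]
    have h1 := dG_le u.1 v.1
    have h2 : dH u.2 v.2 ≤ 1 := by unfold dH; split_ifs <;> omega
    have : dG u.1 v.1 + dH u.2 v.2 ≤ 3 := by omega
    exact_mod_cast this
  · have : (exG □ (⊤ : SimpleGraph (Fin 3))).edist (0, 0) (1, 1) ≤
      (exG □ (⊤ : SimpleGraph (Fin 3))).ediam := edist_le_ediam
    rw [edP] at this
    exact this

/-- the labels of the product: row `g` lists the labels of `(g, 0)`, `(g, 1)`, `(g, 2)` -/
def tab : Fin 10 → Fin 3 → ℕ :=
  ![![6, 0, 3], ![2, 5, 8], ![4, 7, 1], ![29, 26, 22], ![24, 20, 27], ![21, 28, 25],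
    ![16, 10, 13], ![18, 12, 15], ![14, 17, 11], ![9, 23, 19]]

theorem connG : exG.Connected := by
  apply connected_of_ediam_ne_top
  rw [ediamG]
  exact ENat.natCast_ne_top 2

theorem not_graceful : ¬ RadioGraceful exG := by
  rintro ⟨f, hf, hr⟩
  have hcard : Fintype.card (Fin 10) = 10 := rfl
  rw [hcard] at hr
  have hlt : ∀ v, f v < 10 := fun v => by
    have : f v ∈ Set.range f := ⟨v, rfl⟩
    rw [hr] at this
    exact this
  have hsurj : ∀ i, i < 10 → ∃ v, f v = i := fun i hi => by
    have : i ∈ Set.range f := by rw [hr]; exact hi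
    exact this
  -- consecutive labels are far
  have hcons : ∀ u v, f v = f u + 1 → far u v = true := by
    intro u v h
    have huv : u ≠ v := by rintro rfl; omega
    have h1 := hf u v huv
    have hd : exG.dist u v = dG u v := by
      rw [SimpleGraph.dist, edG]; rfl
    have hdi : exG.diam = 2 := by rw [SimpleGraph.diam, ediamG]; rfl
    rw [hd, hdi, h] at h1
    have h2 : |((f u : ℕ) : ℤ) - ((f u + 1 : ℕ) : ℤ)| = 1 := by
      push_cast; rw [sub_add_cancel_left]; simp
    rw [h2] at h1
    unfold dG at h1
    rw [if_neg huv] at h1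
    by_contra hb
    rw [if_neg hb] at h1
    norm_num at h1
  choose g hg using hsurj
  -- same triangle
  have hstep : ∀ u v : Fin 10, far u v = true → u ≠ 9 → v ≠ 9 → u.val / 3 = v.val / 3 := by
    decide
  have hgf : ∀ v, g (f v) (hlt v) = v := by
    intro v
    by_contra hne
    -- injectivity by counting
    have hinj : Function.Injective f := by
      have : Function.Surjective (fun v : Fin 10 => (⟨f v, hlt v⟩ : Fin 10)) := by
        intro i
        exact ⟨g i.val i.isLt, Fin.ext (hg _ _)⟩
      have hi := Finite.injective_iff_surjective.2 this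
      intro a b hab
      exact hi (Fin.ext hab)
    exact hne (hinj (hg _ _))
  have before : ∀ i (hi : i < 10), i < f 9 → (g i hi).val / 3 = (g 0 (by omega)).val / 3 := by
    intro i
    induction i with
    | zero => intro _ _; rfl
    | succ i ih =>
      intro hi hlt9
      rw [← ih (by omega) (by omega)]
      symm
      apply hstep
      · apply hcons; rw [hg, hg]
      · intro h; have := hg i (by omega); rw [h] at this; omega
      · intro h; have := hg (i + 1) hi; rw [h] at this; omega
  have after : ∀ k i (hi : i < 10), f 9 < i → i + k = 9 →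
      (g i hi).val / 3 = (g 9 (by omega)).val / 3 := by
    intro k
    induction k with
    | zero =>
      intro i hi _ h9
      have : i = 9 := by omega
      subst this; rfl
    | succ k ih =>
      intro i hi hlt9 h9
      rw [← ih (i + 1) (by omega) (by omega) (by omega)]
      apply hstep
      · apply hcons; rw [hg, hg]
      · intro h; have := hg i (by omega); rw [h] at this; omega
      · intro h; have := hg (i + 1) (by omega); rw [h] at this; omega
  have key : ∀ v : Fin 10, v ≠ 9 → v.val / 3 = (g 0 (by omega)).val / 3 ∨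
      v.val / 3 = (g 9 (by omega)).val / 3 := by
    intro v hv
    have hne : f v ≠ f 9 := by
      intro h
      have h1 := hgf v
      have h2 := hgf 9
      apply hv
      rw [← h1, ← h2]
      congr 1
    rcases lt_or_gt_of_ne hne with h | h
    · left
      have := before (f v) (hlt v) h
      rwa [hgf] at this
    · right
      have := after (9 - f v) (f v) (hlt v) h (by have := hlt v; omega)
      rwa [hgf] at this
  have k0 := key 0 (by decide)
  have k3 := key 3 (by decide)
  have k6 := key 6 (by decide)
  have e0 : ((0 : Fin 10) : ℕ) / 3 = 0 := rfl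
  have e3 : ((3 : Fin 10) : ℕ) / 3 = 1 := rfl
  have e6 : ((6 : Fin 10) : ℕ) / 3 = 2 := rfl
  rw [e0] at k0
  rw [e3] at k3
  rw [e6] at k6
  omega

/-- There are connected graphs `G`, `H` such that `G □ H` is radio graceful but `G` is not. -/
theorem result : ∃ (V W : Type) (_ : Fintype V) (_ : Fintype W) (G : SimpleGraph V)
    (H : SimpleGraph W), G.Connected ∧ H.Connected ∧ RadioGraceful (G □ H) ∧
      ¬ RadioGraceful G := by
  refine ⟨Fin 10, Fin 3, inferInstance, inferInstance, exG, ⊤, connG, connected_top,
    ⟨fun x => tab x.1 x.2, ?_, ?_⟩, not_graceful⟩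
  · intro x y hxy
    have hd : (exG □ (⊤ : SimpleGraph (Fin 3))).dist x y = dG x.1 y.1 + dH x.2 y.2 := by
      rw [SimpleGraph.dist, edP]; rfl
    have hdi : (exG □ (⊤ : SimpleGraph (Fin 3))).diam = 3 := by
      rw [SimpleGraph.diam, ediamP]; rfl
    rw [hd, hdi]
    obtain ⟨a, b⟩ := x
    obtain ⟨c, d⟩ := y
    have h : ∀ a c : Fin 10, ∀ b d : Fin 3, (a, b) ≠ (c, d) →
        4 ≤ (tab a b - tab c d) + (tab c d - tab a b) + (dG a c + dH b d) := by decide
    have h' := h a c b d hxy
    simp only
    rcases le_total (tab a b) (tab c d) with hle | hle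
    · rw [abs_of_nonpos (by omega)]
      push_cast
      omega
    · rw [abs_of_nonneg (by omega)]
      push_cast
      omega
  · ext i
    simp only [Set.mem_range, Prod.exists, Set.mem_Iio, Fintype.card_prod, Fintype.card_fin]
    constructor
    · rintro ⟨a, b, rfl⟩
      revert a b
      decide
    · intro hi
      have : ∀ i : Fin 30, ∃ a b, tab a b = i.val := by decide
      exact this ⟨i, hi⟩

end Pool.Agent.Results.MP_ce2a64_co.NonGracefulFactor
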